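import Mathlib

/-!
# Linearly ordered topological spaces: embeddings and basic facts
-/

set_option autoImplicit false

open Filter Topology Set

universe u

namespace Pool.Agent.MP_4e3057_lc

/-- `f` is a LOTS embedding: an order-preserving injection which is continuous for the open
interval topologies. -/
def IsLOTSEmbedding {L U : Type u} [LinearOrder L] [LinearOrder U] (f : L → U) : Prop :=
  StrictMono f ∧ @Continuous L U (Preorder.topology L) (Preorder.topology U) f

/-- `U` is a universal LOTS at its cardinality. -/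
def IsUniversalLOTS (U : Type u) [LinearOrder U] : Prop :=
  ∀ (L : Type u) [LinearOrder L], Cardinal.mk L = Cardinal.mk U →
    ∃ f : L → U, IsLOTSEmbedding f

/-- A strictly monotone map preserving suprema and infima of nonempty sets. -/
structure OrdCont {L U : Type u} [LinearOrder L] [LinearOrder U] (f : L → U) : Prop where
  mono : StrictMono f
  lub : ∀ (A : Set L) (x : L), A.Nonempty → IsLUB A x → IsLUB (f '' A) (f x)
  glb : ∀ (A : Set L) (x : L), A.Nonempty → IsGLB A x → IsGLB (f '' A) (f x)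

theorem IsLOTSEmbedding.ordCont {L U : Type u} [LinearOrder L] [LinearOrder U] {f : L → U}
    (hf : IsLOTSEmbedding f) : OrdCont f := by
  obtain ⟨h1, h2⟩ := hf
  let tL : TopologicalSpace L := Preorder.topology L
  let tU : TopologicalSpace U := Preorder.topology U
  have oL : OrderTopology L := ⟨rfl⟩
  have oU : OrderTopology U := ⟨rfl⟩
  refine ⟨h1, ?_, ?_⟩
  · intro A x hA hx
    exact hx.isLUB_of_tendsto (h1.monotone.monotoneOn _) hA
      ((h2.tendsto x).mono_left nhdsWithin_le_nhds)
  · intro A x hA hx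
    exact hx.isGLB_of_tendsto (h1.monotone.monotoneOn _) hA
      ((h2.tendsto x).mono_left nhdsWithin_le_nhds)

section Sum

variable {X Y U : Type u} [LinearOrder X] [LinearOrder Y] [LinearOrder U]

/-- The inclusion of the first summand in a lexicographic sum. -/
def inl' (x : X) : Lex (X ⊕ Y) := toLex (Sum.inl x)

/-- The inclusion of the second summand in a lexicographic sum. -/
def inr' (y : Y) : Lex (X ⊕ Y) := toLex (Sum.inr y)

theorem inl_lt_inl {a b : X} : (inl' a : Lex (X ⊕ Y)) < inl' b ↔ a < b :=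
  Sum.Lex.inl_lt_inl_iff

theorem inl_le_inl {a b : X} : (inl' a : Lex (X ⊕ Y)) ≤ inl' b ↔ a ≤ b :=
  Sum.Lex.inl_le_inl_iff

theorem inl_lt_inr (a : X) (b : Y) : (inl' a : Lex (X ⊕ Y)) < inr' b :=
  Sum.Lex.inl_lt_inr a b

theorem inr_le_inr {a b : Y} : (inr' a : Lex (X ⊕ Y)) ≤ inr' b ↔ a ≤ b :=
  Sum.Lex.inr_le_inr_iff

omit [LinearOrder X] [LinearOrder Y] in
theorem lex_cases (p : Lex (X ⊕ Y)) : (∃ x : X, p = inl' x) ∨ ∃ y : Y, p = inr' y := by
  rcases h : ofLex p with x | y
  · exact Or.inl ⟨x, h⟩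
  · exact Or.inr ⟨y, h⟩

theorem OrdCont.comp_inl {f : Lex (X ⊕ Y) → U} (hf : OrdCont f) :
    OrdCont (fun x : X => f (inl' x)) := by
  refine ⟨fun a b h => hf.mono (inl_lt_inl.2 h), ?_, ?_⟩
  · intro A x hA hx
    have h1 : IsLUB ((inl' : X → Lex (X ⊕ Y)) '' A) (inl' x) := by
      constructor
      · rintro _ ⟨a, ha, rfl⟩
        exact inl_le_inl.2 (hx.1 ha)
      · intro p hp
        rcases lex_cases p with ⟨y, rfl⟩ | ⟨y, rfl⟩
        · apply inl_le_inl.2
          apply hx.2
          intro a ha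
          exact inl_le_inl.1 (hp ⟨a, ha, rfl⟩)
        · exact (inl_lt_inr x y).le
    have h2 := hf.lub _ _ (hA.image _) h1
    rw [Set.image_image] at h2
    exact h2
  · intro A x hA hx
    have h1 : IsGLB ((inl' : X → Lex (X ⊕ Y)) '' A) (inl' x) := by
      constructor
      · rintro _ ⟨a, ha, rfl⟩
        exact inl_le_inl.2 (hx.1 ha)
      · intro p hp
        rcases lex_cases p with ⟨y, rfl⟩ | ⟨y, rfl⟩
        · apply inl_le_inl.2
          apply hx.2
          intro a ha
          exact inl_le_inl.1 (hp ⟨a, ha, rfl⟩)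
        · obtain ⟨a, ha⟩ := hA
          exact absurd (hp ⟨a, ha, rfl⟩) (not_le.2 (inl_lt_inr a y))
    have h2 := hf.glb _ _ (hA.image _) h1
    rw [Set.image_image] at h2
    exact h2

end Sum

section Order

/-- In the least well-order `W` of size `κ⁺`, sets of size at most `κ` are strictly bounded, and
initial segments have size at most `κ`. -/
theorem exists_succ_order (κ : Cardinal.{u}) (hκ : Cardinal.aleph0 ≤ κ) :
    ∃ (W : Type u) (_ : LinearOrder W) (_ : WellFoundedLT W),
      Cardinal.mk W = Order.succ κ ∧ (∀ w : W, Cardinal.mk (Set.Iic w) ≤ κ) ∧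
      ∀ C : Set W, Cardinal.mk C ≤ κ → ∃ β : W, ∀ i ∈ C, i < β := by
  have hcard : Cardinal.mk (Order.succ κ).ord.ToType = Order.succ κ := by
    rw [Cardinal.mk_toType, Cardinal.card_ord]
  have hIio : ∀ i : (Order.succ κ).ord.ToType, Cardinal.mk (Set.Iio i) ≤ κ := by
    intro i
    have h := Cardinal.mk_Iio_lt i (by rw [hcard, Ordinal.type_toType])
    rw [hcard] at h
    exact Order.lt_succ_iff.1 h
  have hIic : ∀ i : (Order.succ κ).ord.ToType, Cardinal.mk (Set.Iic i) ≤ κ := by
    intro i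
    rw [← Set.Iio_insert]
    refine (Cardinal.mk_insert_le).trans ?_
    exact Cardinal.add_le_of_le hκ (hIio i) (Cardinal.one_le_aleph0.trans hκ)
  refine ⟨(Order.succ κ).ord.ToType, inferInstance, inferInstance, hcard, hIic, ?_⟩
  intro C hC
  by_contra hcon
  have hcon' : ∀ β : (Order.succ κ).ord.ToType, ∃ i ∈ C, β ≤ i := by
    intro β
    by_contra hβ
    apply hcon
    refine ⟨β, fun i hi => ?_⟩
    by_contra hlt
    exact hβ ⟨i, hi, not_lt.1 hlt⟩
  have huniv : (Set.univ : Set (Order.succ κ).ord.ToType) ⊆ ⋃ i : C, Set.Iic i.1 := by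
    intro β _
    obtain ⟨i, hi, hβ⟩ := hcon' β
    exact Set.mem_iUnion.2 ⟨⟨i, hi⟩, hβ⟩
  have h1 : Cardinal.mk (Order.succ κ).ord.ToType ≤ κ := by
    rw [← Cardinal.mk_univ]
    refine (Cardinal.mk_le_mk_of_subset huniv).trans ?_
    refine (Cardinal.mk_iUnion_le _).trans ?_
    have h2 : (⨆ i : C, Cardinal.mk (Set.Iic i.1)) ≤ κ := ciSup_le' fun i : C => hIic i.1
    calc Cardinal.mk C * (⨆ i : C, Cardinal.mk (Set.Iic i.1)) ≤ κ * κ := mul_le_mul' hC h2
      _ = κ := Cardinal.mul_eq_self hκ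
  rw [hcard] at h1
  exact absurd h1 (not_le.2 (Order.lt_succ κ))

end Order

end Pool.Agent.MP_4e3057_lc
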