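import Pool.Agent.Lib.MP_4e3057_lc.Stat

/-!
# No universal LOTS below `2 ^ ℵ₁`: coding subsets of `ω₁` modulo club
-/

set_option autoImplicit false

open Filter Topology Set

universe u

namespace Pool.Agent.MP_4e3057_lc

section Code

variable {I : Type u} [LinearOrder I]

/-- The coding order: above the `α`-th point hangs a copy of `ω*` when `α ∈ S`, and a copy of
`ω₁*` when `α ∉ S`. -/
def Code (j : ℕ → I) (S : Set I) : Type u :=
  {p : I ×ₗ WithBot Iᵒᵈ // (ofLex p).2 = ⊥ ∨ (ofLex p).1 ∉ S ∨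
    ∃ n : ℕ, (ofLex p).2 = ((OrderDual.toDual (j n) : Iᵒᵈ) : WithBot Iᵒᵈ)}

noncomputable instance (j : ℕ → I) (S : Set I) : LinearOrder (Code j S) :=
  inferInstanceAs (LinearOrder {p : I ×ₗ WithBot Iᵒᵈ // (ofLex p).2 = ⊥ ∨ (ofLex p).1 ∉ S ∨
    ∃ n : ℕ, (ofLex p).2 = ((OrderDual.toDual (j n) : Iᵒᵈ) : WithBot Iᵒᵈ)})

variable (j : ℕ → I) (S : Set I)

/-- The `α`-th point. -/
def pt (α : I) : Code j S := ⟨toLex (α, ⊥), Or.inl rfl⟩

/-- The point `i` of the tail above the `α`-th point, for `α ∉ S`. -/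
def tailPt (α : I) (h : α ∉ S) (i : I) : Code j S :=
  ⟨toLex (α, ((OrderDual.toDual i : Iᵒᵈ) : WithBot Iᵒᵈ)), Or.inr (Or.inl h)⟩

/-- The `n`-th point of the tail above the `α`-th point. -/
def seqPt (α : I) (n : ℕ) : Code j S :=
  ⟨toLex (α, ((OrderDual.toDual (j n) : Iᵒᵈ) : WithBot Iᵒᵈ)), Or.inr (Or.inr ⟨n, rfl⟩)⟩

theorem code_le_iff (p q : Code j S) : p ≤ q ↔ (ofLex p.1).1 < (ofLex q.1).1 ∨
    (ofLex p.1).1 = (ofLex q.1).1 ∧ (ofLex p.1).2 ≤ (ofLex q.1).2 := by
  show p.1 ≤ q.1 ↔ _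
  rw [Prod.Lex.le_iff]

theorem code_lt_iff (p q : Code j S) : p < q ↔ (ofLex p.1).1 < (ofLex q.1).1 ∨
    (ofLex p.1).1 = (ofLex q.1).1 ∧ (ofLex p.1).2 < (ofLex q.1).2 := by
  show p.1 < q.1 ↔ _
  rw [Prod.Lex.lt_iff]

theorem pt_lt_pt {α β : I} (h : α < β) : pt j S α < pt j S β := by
  rw [code_lt_iff]
  exact Or.inl h

theorem pt_isLUB (α : I) (hα : ∀ β < α, ∃ γ, β < γ ∧ γ < α) :
    IsLUB (pt j S '' Set.Iio α) (pt j S α) := by
  constructor
  · rintro _ ⟨β, hβ, rfl⟩
    exact (pt_lt_pt j S hβ).le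
  · intro p hp
    rw [code_le_iff]
    rcases lt_or_ge (ofLex p.1).1 α with h | h
    · obtain ⟨γ, h1, h2⟩ := hα _ h
      have h3 := hp ⟨γ, h2, rfl⟩
      rw [code_le_iff] at h3
      rcases h3 with h3 | h3
      · exact absurd (lt_trans h1 h3) (lt_irrefl _)
      · exact absurd h1 (not_lt.2 h3.1.le)
    · rcases lt_or_eq_of_le h with h' | h'
      · exact Or.inl h'
      · exact Or.inr ⟨h', bot_le⟩

theorem seq_isGLB (hj : StrictMono j) (α : I) (hα : α ∈ S) :
    IsGLB (Set.range (seqPt j S α)) (pt j S α) := by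
  constructor
  · rintro _ ⟨n, rfl⟩
    rw [code_le_iff]
    exact Or.inr ⟨rfl, bot_le⟩
  · intro p hp
    rw [code_le_iff]
    have h0 := hp ⟨0, rfl⟩
    rw [code_le_iff] at h0
    rcases h0 with h0 | h0
    · exact Or.inl h0
    · refine Or.inr ⟨h0.1, ?_⟩
      have hpα : (ofLex p.1).1 = α := h0.1
      rcases p.2 with hb | hS | ⟨m, hm⟩
      · rw [hb]
        exact bot_le
      · rw [hpα] at hS
        exact absurd hα hS
      · exfalso
        have h1 := hp ⟨m + 1, rfl⟩
        rw [code_le_iff] at h1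
        rcases h1 with h1 | h1
        · have h1' : (ofLex p.1).1 < α := h1
          rw [hpα] at h1'
          exact lt_irrefl _ h1'
        · have h2 := h1.2
          rw [hm] at h2
          have h3 : (OrderDual.toDual (j m) : Iᵒᵈ) ≤ OrderDual.toDual (j (m + 1)) :=
            WithBot.coe_le_coe.1 h2
          rw [OrderDual.toDual_le_toDual] at h3
          exact absurd (hj (Nat.lt_succ_self m)) (not_lt.2 h3)

theorem tail_isGLB (hmax : ∀ i : I, ∃ i', i < i') (α : I) (hα : α ∉ S) :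
    IsGLB (Set.range (tailPt j S α hα)) (pt j S α) := by
  constructor
  · rintro _ ⟨n, rfl⟩
    rw [code_le_iff]
    exact Or.inr ⟨rfl, bot_le⟩
  · intro p hp
    rw [code_le_iff]
    have h0 := hp ⟨α, rfl⟩
    rw [code_le_iff] at h0
    rcases h0 with h0 | h0
    · exact Or.inl h0
    · refine Or.inr ⟨h0.1, ?_⟩
      have hpα : (ofLex p.1).1 = α := h0.1
      rcases hb : (ofLex p.1).2 with _ | i
      · exact le_rfl
      · exfalso
        obtain ⟨i', hi'⟩ := hmax (OrderDual.ofDual i)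
        have h1 := hp ⟨i', rfl⟩
        rw [code_le_iff] at h1
        rcases h1 with h1 | h1
        · have h1' : (ofLex p.1).1 < α := h1
          rw [hpα] at h1'
          exact lt_irrefl _ h1'
        · have h2 := h1.2
          rw [hb] at h2
          have h3 : i ≤ OrderDual.toDual i' := WithBot.coe_le_coe.1 h2
          have h4 : i' ≤ OrderDual.ofDual i := h3
          exact absurd hi' (not_lt.2 h4)

end Code

section Main

variable {I : Type u} [LinearOrder I]
variable {U : Type u} [LinearOrder U]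

/-- What an embedding of the coding order gives: `u` codes `S`. -/
def Codes (u : U) (S : Set I) : Prop :=
  ∃ g : I → U, StrictMono g ∧ IsLUB (Set.range g) u ∧
    (∀ α, (∃ β, β < α) → (∀ β < α, ∃ γ, β < γ ∧ γ < α) → IsLUB (g '' Set.Iio α) (g α)) ∧
    ∀ α, α ∈ S ↔ ∃ D : Set U, D.Countable ∧ D ⊆ Set.Ioi (g α) ∧ IsGLB D (g α)

theorem codes_of_embedding (hbdd : ∀ C : Set I, C.Countable → ∃ β : I, ∀ i ∈ C, i < β)
    (j : ℕ → I) (hj : StrictMono j) (S : Set I) {Y : Type u} [LinearOrder Y] [OrderBot Y]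
    (f : Lex (Code j S ⊕ Y) → U) (hf : OrdCont f) :
    Codes (f (inr' ⊥)) S := by
  have hmax : ∀ i : I, ∃ i', i < i' := by
    intro i
    obtain ⟨b, hb⟩ := hbdd {i} (Set.countable_singleton i)
    exact ⟨b, hb i rfl⟩
  have hfi := hf.comp_inl
  refine ⟨fun α => f (inl' (pt j S α)), ?_, ?_, ?_, ?_⟩
  · intro α β h
    exact hf.mono (inl_lt_inl.2 (pt_lt_pt j S h))
  · have h1 : IsLUB (Set.range fun α => (inl' (pt j S α) : Lex (Code j S ⊕ Y))) (inr' ⊥) := by
      constructor
      · rintro _ ⟨α, rfl⟩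
        exact (inl_lt_inr _ _).le
      · intro p hp
        rcases lex_cases p with ⟨x, rfl⟩ | ⟨y, rfl⟩
        · obtain ⟨i, hi⟩ := hmax (ofLex x.1).1
          have h2 := inl_le_inl.1 (hp ⟨i, rfl⟩)
          rw [code_le_iff] at h2
          rcases h2 with h2 | h2
          · exact absurd (lt_trans hi h2) (lt_irrefl _)
          · exact absurd hi (not_lt.2 h2.1.le)
        · exact inr_le_inr.2 bot_le
    have h2 := hf.lub _ _ ?_ h1
    · rw [← Set.range_comp] at h2
      exact h2
    · exact ⟨_, j 0, rfl⟩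
  · intro α hα0 hα
    have h1 := hfi.lub _ _ (Set.Nonempty.image _ hα0) (pt_isLUB j S α hα)
    rw [Set.image_image] at h1
    exact h1
  · intro α
    constructor
    · intro hα
      refine ⟨Set.range fun n => f (inl' (seqPt j S α n)), Set.countable_range _, ?_, ?_⟩
      · rintro _ ⟨n, rfl⟩
        apply hf.mono
        apply inl_lt_inl.2
        rw [code_lt_iff]
        exact Or.inr ⟨rfl, WithBot.bot_lt_coe _⟩
      · have h1 := hfi.glb (Set.range (seqPt j S α)) _ ⟨seqPt j S α 0, 0, rfl⟩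
          (seq_isGLB j S hj α hα)
        rw [← Set.range_comp] at h1
        exact h1
    · rintro ⟨D, hD, hDsub, hDglb⟩
      by_contra hα
      have h1 := hfi.glb (Set.range (tailPt j S α hα)) _ ⟨tailPt j S α hα α, α, rfl⟩
        (tail_isGLB j S hmax α hα)
      rw [← Set.range_comp] at h1
      -- for each `d ∈ D` there is a tail point below it
      have h2 : ∀ d : D, ∃ i : I, f (inl' (tailPt j S α hα i)) < d.1 := by
        intro d
        by_contra hcon
        push Not at hcon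
        have h3 : d.1 ≤ f (inl' (pt j S α)) := by
          apply h1.2
          rintro _ ⟨i, rfl⟩
          exact hcon i
        exact absurd (hDsub d.2) (not_lt.2 h3)
      choose r hr using h2
      have : Countable D := hD.to_subtype
      obtain ⟨b, hb⟩ := hbdd (Set.range r) (Set.countable_range r)
      have h4 : f (inl' (tailPt j S α hα b)) ≤ f (inl' (pt j S α)) := by
        apply hDglb.2
        intro d hd
        have h5 : r ⟨d, hd⟩ < b := hb _ ⟨⟨d, hd⟩, rfl⟩
        have h6 : tailPt j S α hα b < tailPt j S α hα (r ⟨d, hd⟩) := by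
          rw [code_lt_iff]
          refine Or.inr ⟨rfl, ?_⟩
          exact WithBot.coe_lt_coe.2 (OrderDual.toDual_lt_toDual.2 h5)
        exact (hf.mono (inl_lt_inl.2 h6)).le.trans (hr ⟨d, hd⟩).le
      have h7 : pt j S α < tailPt j S α hα b := by
        rw [code_lt_iff]
        exact Or.inr ⟨rfl, WithBot.bot_lt_coe _⟩
      exact absurd (hf.mono (inl_lt_inl.2 h7)) (not_lt.2 h4)

/-- Two sets coded by the same point agree on the closure points of some function. -/
theorem codes_unique {u : U} {S T : Set I} (hS : Codes u S) (hT : Codes u T) (A : Set I)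
    (hA : Stat A) : ∃ α ∈ A, (α ∈ S ↔ α ∈ T) := by
  obtain ⟨g, hg1, hg2, hg3, hg4⟩ := hS
  obtain ⟨h, hh1, hh2, hh3, hh4⟩ := hT
  have key : ∀ (g h : I → U), StrictMono g → StrictMono h → IsLUB (Set.range g) u →
      IsLUB (Set.range h) u → (∀ α : I, ∃ β, α < β) → ∀ β, ∃ γ, g β < h γ := by
    intro g h hg _ hgu hhu hmax β
    by_contra hcon
    push Not at hcon
    have h1 : u ≤ g β := by
      apply hhu.2
      rintro _ ⟨γ, rfl⟩
      exact hcon γ
    obtain ⟨β', hβ'⟩ := hmax β
    have h2 : g β' ≤ u := hgu.1 ⟨β', rfl⟩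
    exact absurd (hg hβ') (not_lt.2 (h2.trans h1))
  have hmax : ∀ α : I, ∃ β, α < β := by
    intro α
    by_contra hcon
    push Not at hcon
    -- then the constant function with value `α` has no closure point
    obtain ⟨δ, -, ⟨β, hβ⟩, hδ⟩ := hA fun _ => α
    exact absurd (hcon δ) (not_le.2 (hδ β hβ))
  have k1 := key g h hg1 hh1 hg2 hh2 hmax
  have k2 := key h g hh1 hg1 hh2 hg2 hmax
  choose a ha using k1
  choose b hb using k2
  choose c hc using hmax
  obtain ⟨α, hαA, ⟨β₀, hβ₀⟩, hα⟩ := hA fun β => max (max (a β) (b β)) (c β)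
  have hlim : ∀ β < α, ∃ γ, β < γ ∧ γ < α := fun β hβ =>
    ⟨c β, hc β, lt_of_le_of_lt (le_max_right _ _) (hα β hβ)⟩
  have e1 := hg3 α ⟨β₀, hβ₀⟩ hlim
  have e2 := hh3 α ⟨β₀, hβ₀⟩ hlim
  have heq : g α = h α := by
    apply le_antisymm
    · apply e1.2
      rintro _ ⟨β, hβ, rfl⟩
      have h1 : a β < α := lt_of_le_of_lt ((le_max_left _ _).trans (le_max_left _ _)) (hα β hβ)
      exact (ha β).le.trans (e2.1 ⟨a β, h1, rfl⟩)
    · apply e2.2
      rintro _ ⟨β, hβ, rfl⟩
      have h1 : b β < α := lt_of_le_of_lt ((le_max_right _ _).trans (le_max_left _ _)) (hα β hβ)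
      exact (hb β).le.trans (e1.1 ⟨b β, h1, rfl⟩)
  refine ⟨α, hαA, ?_⟩
  rw [hg4, hh4, heq]

end Main

/-- No universal LOTS at uncountable cardinals below `2 ^ ℵ₁`. -/
theorem not_universal_small (U : Type u) [LinearOrder U] (h1 : Cardinal.aleph 1 ≤ Cardinal.mk U)
    (h2 : Cardinal.mk U < 2 ^ Cardinal.aleph.{u} 1) : ¬ IsUniversalLOTS U := by
  intro huniv
  obtain ⟨I, hlin, hwf, hcard, hIic, hbdd⟩ := exists_succ_order (Cardinal.aleph0.{u}) le_rfl
  rw [Cardinal.succ_aleph0] at hcard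
  have hcount : ∀ w : I, (Set.Iic w).Countable := fun w => Cardinal.le_aleph0_iff_set_countable.1
    (hIic w)
  have hbdd' : ∀ C : Set I, C.Countable → ∃ β : I, ∀ i ∈ C, i < β := fun C hC =>
    hbdd C (Cardinal.le_aleph0_iff_set_countable.2 hC)
  obtain ⟨J, A, hJ, hA, hdisj⟩ := exists_disjoint_stat hcount hbdd'
  have hmax : ∀ i : I, ∃ i', i < i' := by
    intro i
    obtain ⟨b, hb⟩ := hbdd' {i} (Set.countable_singleton i)
    exact ⟨b, hb i rfl⟩
  have : Nonempty I := by
    rw [← Cardinal.mk_ne_zero_iff, hcard]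
    exact (Cardinal.aleph_pos 1).ne'
  -- a strictly increasing sequence
  obtain ⟨j, hj⟩ : ∃ j : ℕ → I, StrictMono j := by
    have : NoMaxOrder I := ⟨hmax⟩
    exact Nat.exists_strictMono I
  -- the coded sets
  let Sx : Set J → Set I := fun X => ⋃ i ∈ X, A i.1
  have hL : ∀ X : Set J, ∃ u : U, Codes u (Sx X) := by
    intro X
    have hcardL : Cardinal.mk (Lex (Code j (Sx X) ⊕ WithBot U)) = Cardinal.mk U := by
      have hinf : Cardinal.aleph0 ≤ Cardinal.mk U :=
        (Cardinal.aleph0_lt_aleph_one.le).trans h1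
      have e1 : Cardinal.mk (Lex (Code j (Sx X) ⊕ WithBot U)) =
          Cardinal.mk (Code j (Sx X)) + Cardinal.mk (WithBot U) := by
        change Cardinal.mk (Code j (Sx X) ⊕ WithBot U) = _
        rw [Cardinal.mk_sum, Cardinal.lift_id, Cardinal.lift_id]
      have e2 : Cardinal.mk (WithBot U) = Cardinal.mk U := by
        change Cardinal.mk (Option U) = _
        rw [Cardinal.mk_option]
        exact Cardinal.add_one_eq hinf
      have e3 : Cardinal.mk (Code j (Sx X)) ≤ Cardinal.mk U := by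
        have f1 : Cardinal.mk (Code j (Sx X)) ≤ Cardinal.mk (I × Option I) :=
          Cardinal.mk_subtype_le _
        refine f1.trans ?_
        rw [Cardinal.mk_prod, Cardinal.lift_id, Cardinal.lift_id, Cardinal.mk_option, hcard]
        rw [Cardinal.add_one_eq Cardinal.aleph0_lt_aleph_one.le,
          Cardinal.mul_eq_self Cardinal.aleph0_lt_aleph_one.le]
        exact h1
      rw [e1, e2]
      exact Cardinal.add_eq_right hinf e3
    obtain ⟨f, hf⟩ := huniv _ hcardL
    exact ⟨_, codes_of_embedding hbdd' j hj _ f hf.ordCont⟩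
  choose v hv using hL
  have hinj : Function.Injective v := by
    intro X Y hXY
    have key : ∀ X Y : Set J, v X = v Y → ∀ i ∈ X, i ∈ Y := by
      intro X Y hXY i hi
      by_contra hiY
      have c1 := hv X
      have c2 := hv Y
      rw [← hXY] at c2
      obtain ⟨α, hα, hiff⟩ := codes_unique c1 c2 (A i.1) (hA i.1 i.2)
      have h3 : α ∈ Sx X := Set.mem_biUnion hi hα
      obtain ⟨k, hk, hαk⟩ := Set.mem_iUnion₂.1 (hiff.1 h3)
      have : i = k := Subtype.ext (hdisj i.1 i.2 k.1 k.2 α hα hαk)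
      rw [this] at hiY
      exact hiY hk
    exact Set.Subset.antisymm (fun i hi => key X Y hXY i hi) (fun i hi => key Y X hXY.symm i hi)
  have h3 : Cardinal.mk (Set J) ≤ Cardinal.mk U := Cardinal.mk_le_of_injective hinj
  rw [Cardinal.mk_set] at h3
  have h4 : Cardinal.aleph 1 ≤ Cardinal.mk J := by
    rw [Cardinal.aleph_one_le_iff]
    by_contra h
    exact hJ (Cardinal.le_aleph0_iff_set_countable.1 (not_lt.1 h))
  have h5 : (2 : Cardinal.{u}) ^ Cardinal.aleph.{u} 1 ≤ 2 ^ Cardinal.mk J :=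
    Cardinal.power_le_power_left two_ne_zero h4
  exact absurd h2 (not_lt.2 (h5.trans h3))

end Pool.Agent.MP_4e3057_lc
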