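import Pool.Agent.Lib.MP_4e3057_lc.Basic

/-!
# No universal LOTS at cardinals `≥ 𝔠`: long lines
-/

set_option autoImplicit false

open Filter Topology Set

universe u

namespace Pool.Agent.MP_4e3057_lc

section General

/-- Continuous images of complete dense orders are convex. -/
theorem convex_image {X U : Type u} [LinearOrder X] [LinearOrder U]
    (hdense : ∀ x y : X, x < y → ∃ z, x < z ∧ z < y)
    (hlub : ∀ (A : Set X) (y : X), A.Nonempty → y ∈ upperBounds A → ∃ z, IsLUB A z)
    (f : X → U) (hf : OrdCont f) (x y : X) (w : U) (h1 : f x < w) (h2 : w < f y) :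
    ∃ z, x < z ∧ z < y ∧ f z = w := by
  have hA : ({z | f z ≤ w} : Set X).Nonempty := ⟨x, h1.le⟩
  have hy : y ∈ upperBounds ({z | f z ≤ w} : Set X) := by
    intro z hz
    by_contra h
    exact absurd ((hf.mono (not_le.1 h)).le.trans hz) (not_le.2 h2)
  obtain ⟨z, hz⟩ := hlub _ y hA hy
  have h3 := hf.lub _ z hA hz
  have h4 : f z ≤ w := by
    apply h3.2
    rintro _ ⟨a, ha, rfl⟩
    exact ha
  have hzy : z < y := by
    rcases lt_or_eq_of_le (hz.2 hy) with h | h
    · exact h
    · rw [h] at h4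
      exact absurd h2 (not_lt.2 h4)
  have h5 : f z = w := by
    apply le_antisymm h4
    have hB : ({a | z < a} : Set X).Nonempty := ⟨y, hzy⟩
    have hBglb : IsGLB ({a | z < a} : Set X) z := by
      constructor
      · intro a ha
        exact le_of_lt ha
      · intro b hb
        by_contra h
        obtain ⟨c, hc1, hc2⟩ := hdense z b (not_le.1 h)
        exact absurd (hb hc1) (not_le.2 hc2)
    have h6 := hf.glb _ z hB hBglb
    apply h6.2
    rintro _ ⟨a, ha, rfl⟩
    by_contra h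
    have h7 : a ∈ ({z | f z ≤ w} : Set X) := (not_le.1 h).le
    exact absurd (hz.1 h7) (not_le.2 ha)
  refine ⟨z, ?_, hzy, h5⟩
  by_contra h
  have h6 := hf.mono.monotone (not_lt.1 h)
  rw [h5] at h6
  exact absurd h1 (not_lt.2 h6)

/-- Every countable set below `x` has a strict bound below `x`. -/
def Lc {X : Type u} [LinearOrder X] (x : X) : Prop :=
  ∀ D : Set X, D.Countable → (∀ d ∈ D, d < x) → ∃ w < x, ∀ d ∈ D, d < w

theorem lc_transfer {X U : Type u} [LinearOrder X] [LinearOrder U] (f : X → U)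
    (hf : StrictMono f) (x0 : X) (h0 : ∀ x, x0 ≤ x)
    (hconv : ∀ (x : X) (w : U), f x0 < w → w < f x → ∃ z, z < x ∧ f z = w)
    (x : X) (hx : x0 < x) : Lc x ↔ Lc (f x) := by
  constructor
  · intro h D hD hDx
    let D' : Set X := insert x0 {z | f z ∈ D}
    have hD' : D'.Countable := by
      apply Set.Countable.insert
      exact hD.preimage hf.injective
    obtain ⟨w, hw1, hw2⟩ := h D' hD' (by
      rintro d (rfl | hd)
      · exact hx
      · exact hf.lt_iff_lt.1 (hDx _ hd))
    refine ⟨f w, hf hw1, fun d hd => ?_⟩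
    rcases le_or_gt d (f x0) with h1 | h1
    · exact lt_of_le_of_lt h1 (hf (hw2 x0 (Or.inl rfl)))
    · obtain ⟨z, -, hz2⟩ := hconv x d h1 (hDx d hd)
      rw [← hz2]
      apply hf
      apply hw2
      right
      show f z ∈ D
      rw [hz2]
      exact hd
  · intro h D hD hDx
    obtain ⟨w, hw1, hw2⟩ := h (insert (f x0) (f '' D)) ((hD.image f).insert _) (by
      rintro d (rfl | ⟨z, hz, rfl⟩)
      · exact hf hx
      · exact hf (hDx z hz))
    obtain ⟨z, hz1, hz2⟩ := hconv x w (hw2 _ (Or.inl rfl)) hw1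
    refine ⟨z, hz1, fun d hd => ?_⟩
    have := hw2 (f d) (Or.inr ⟨d, hd, rfl⟩)
    rw [← hz2] at this
    exact hf.lt_iff_lt.1 this

end General

section LongLine

variable {W : Type u} [LinearOrder W]

/-- The long line of length `θ`. -/
def Long (θ : W) : Type u := {p : W ×ₗ Set.Ico (0 : ℝ) 1 // (ofLex p).1 < θ}

noncomputable instance (θ : W) : LinearOrder (Long θ) :=
  inferInstanceAs (LinearOrder {p : W ×ₗ Set.Ico (0 : ℝ) 1 // (ofLex p).1 < θ})

/-- Points of the long line. -/
def lp {θ : W} (α : W) (t : Set.Ico (0 : ℝ) 1) (h : α < θ) : Long θ := ⟨toLex (α, t), h⟩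

/-- First coordinate. -/
def fst {θ : W} (p : Long θ) : W := (ofLex p.1).1

/-- Second coordinate. -/
def snd {θ : W} (p : Long θ) : Set.Ico (0 : ℝ) 1 := (ofLex p.1).2

theorem fst_lt {θ : W} (p : Long θ) : fst p < θ := p.2

theorem lp_eta {θ : W} (p : Long θ) : lp (fst p) (snd p) (fst_lt p) = p := rfl

theorem long_le_iff {θ : W} (p q : Long θ) : p ≤ q ↔ fst p < fst q ∨
    fst p = fst q ∧ snd p ≤ snd q := by
  show p.1 ≤ q.1 ↔ _
  rw [Prod.Lex.le_iff]
  rfl

theorem long_lt_iff {θ : W} (p q : Long θ) : p < q ↔ fst p < fst q ∨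
    fst p = fst q ∧ snd p < snd q := by
  show p.1 < q.1 ↔ _
  rw [Prod.Lex.lt_iff]
  rfl

/-- The zero of `[0,1)`. -/
def z0 : Set.Ico (0 : ℝ) 1 := ⟨0, le_rfl, zero_lt_one⟩

theorem z0_le (t : Set.Ico (0 : ℝ) 1) : z0 ≤ t := t.2.1

theorem long_dense {θ : W} (x y : Long θ) (h : x < y) : ∃ z, x < z ∧ z < y := by
  rw [long_lt_iff] at h
  rcases h with h | ⟨h1, h2⟩
  · have hs : (snd x : ℝ) < 1 := (snd x).2.2
    have hs0 : (0 : ℝ) ≤ snd x := (snd x).2.1
    refine ⟨lp (fst x) ⟨((snd x : ℝ) + 1) / 2, by linarith, by linarith⟩ (fst_lt x), ?_, ?_⟩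
    · rw [long_lt_iff]
      refine Or.inr ⟨rfl, ?_⟩
      show (snd x : ℝ) < ((snd x : ℝ) + 1) / 2
      linarith
    · rw [long_lt_iff]
      exact Or.inl h
  · have h2' : (snd x : ℝ) < snd y := h2
    have hx0 : (0 : ℝ) ≤ snd x := (snd x).2.1
    have hy1 : (snd y : ℝ) < 1 := (snd y).2.2
    refine ⟨lp (fst x) ⟨((snd x : ℝ) + snd y) / 2, by linarith, by linarith⟩ (fst_lt x), ?_, ?_⟩
    · rw [long_lt_iff]
      refine Or.inr ⟨rfl, ?_⟩
      show (snd x : ℝ) < ((snd x : ℝ) + snd y) / 2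
      linarith
    · rw [long_lt_iff]
      refine Or.inr ⟨h1, ?_⟩
      show ((snd x : ℝ) + snd y) / 2 < (snd y : ℝ)
      linarith

variable [WellFoundedLT W]

theorem exists_min (P : W → Prop) (h : ∃ w, P w) : ∃ w, P w ∧ ∀ v, P v → w ≤ v := by
  obtain ⟨w, hw1, hw2⟩ := wellFounded_lt.has_min {w | P w} h
  exact ⟨w, hw1, fun v hv => not_lt.1 (hw2 v hv)⟩

theorem long_lub {θ : W} (A : Set (Long θ)) (y : Long θ) (hA : A.Nonempty)
    (hy : y ∈ upperBounds A) : ∃ z, IsLUB A z := by
  have hfst : ∀ y' ∈ upperBounds A, ∀ a ∈ A, fst a ≤ fst y' := by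
    intro y' hy' a ha
    have := hy' ha
    rw [long_le_iff] at this
    rcases this with h | h
    · exact h.le
    · exact h.1.le
  obtain ⟨α, hα1, hα2⟩ := exists_min (fun β : W => ∀ a ∈ A, fst a ≤ β) ⟨fst y, hfst y hy⟩
  have hαy : ∀ y' ∈ upperBounds A, α ≤ fst y' := fun y' hy' => hα2 _ (hfst y' hy')
  by_cases hcase : ∃ a ∈ A, fst a = α
  · let T : Set ℝ := {t | ∃ a ∈ A, fst a = α ∧ (snd a : ℝ) = t}
    have hTne : T.Nonempty := by
      obtain ⟨a, ha, haα⟩ := hcase
      exact ⟨_, a, ha, haα, rfl⟩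
    have hT1 : ∀ t ∈ T, t < 1 := by
      rintro _ ⟨a, -, -, rfl⟩
      exact (snd a).2.2
    have hT0 : ∀ t ∈ T, 0 ≤ t := by
      rintro _ ⟨a, -, -, rfl⟩
      exact (snd a).2.1
    have hTb : BddAbove T := ⟨1, fun t ht => (hT1 t ht).le⟩
    have hs1 : sSup T ≤ 1 := csSup_le hTne fun t ht => (hT1 t ht).le
    have hs0 : 0 ≤ sSup T := by
      obtain ⟨t, ht⟩ := hTne
      exact (hT0 t ht).trans (le_csSup hTb ht)
    have hαθ : α < θ := by
      obtain ⟨a, _, haα⟩ := hcase
      rw [← haα]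
      exact fst_lt a
    rcases lt_or_eq_of_le hs1 with hs | hs
    · refine ⟨lp α ⟨sSup T, hs0, hs⟩ hαθ, ?_, ?_⟩
      · intro a ha
        rw [long_le_iff]
        rcases lt_or_eq_of_le (hα1 a ha) with h | h
        · exact Or.inl h
        · exact Or.inr ⟨h, le_csSup hTb ⟨a, ha, h, rfl⟩⟩
      · intro y' hy'
        rw [long_le_iff]
        rcases lt_or_eq_of_le (hαy y' hy') with h | h
        · exact Or.inl h
        · refine Or.inr ⟨h, ?_⟩
          show sSup T ≤ (snd y' : ℝ)
          apply csSup_le hTne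
          rintro _ ⟨a, ha, haα, rfl⟩
          have := hy' ha
          rw [long_le_iff] at this
          rcases this with h3 | h3
          · rw [haα, h] at h3
            exact absurd h3 (lt_irrefl _)
          · exact h3.2
    · -- the supremum is `1`
      have hlt : ∀ y' ∈ upperBounds A, α < fst y' := by
        intro y' hy'
        rcases lt_or_eq_of_le (hαy y' hy') with h | h
        · exact h
        · exfalso
          have h4 : sSup T ≤ (snd y' : ℝ) := by
            apply csSup_le hTne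
            rintro _ ⟨a, ha, haα, rfl⟩
            have := hy' ha
            rw [long_le_iff] at this
            rcases this with h3 | h3
            · rw [haα, h] at h3
              exact absurd h3 (lt_irrefl _)
            · exact h3.2
          rw [hs] at h4
          exact absurd (snd y').2.2 (not_lt.2 h4)
      obtain ⟨β, hβ1, hβ2⟩ := exists_min (fun β : W => α < β) ⟨fst y, hlt y hy⟩
      have hβθ : β < θ := lt_of_le_of_lt (hβ2 _ (hlt y hy)) (fst_lt y)
      refine ⟨lp β z0 hβθ, ?_, ?_⟩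
      · intro a ha
        rw [long_le_iff]
        exact Or.inl (lt_of_le_of_lt (hα1 a ha) hβ1)
      · intro y' hy'
        rw [long_le_iff]
        rcases lt_or_eq_of_le (hβ2 _ (hlt y' hy')) with h | h
        · exact Or.inl h
        · exact Or.inr ⟨h, z0_le _⟩
  · have hlt : ∀ a ∈ A, fst a < α := by
      intro a ha
      rcases lt_or_eq_of_le (hα1 a ha) with h | h
      · exact h
      · exact absurd ⟨a, ha, h⟩ hcase
    have hαθ : α < θ := lt_of_le_of_lt (hαy y hy) (fst_lt y)
    refine ⟨lp α z0 hαθ, ?_, ?_⟩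
    · intro a ha
      rw [long_le_iff]
      exact Or.inl (hlt a ha)
    · intro y' hy'
      rw [long_le_iff]
      rcases lt_or_eq_of_le (hαy y' hy') with h | h
      · exact Or.inl h
      · exact Or.inr ⟨h, z0_le _⟩

omit [WellFoundedLT W] in
theorem long_countable_rat {θ : W} (D : Set W) (hD : D.Countable) (hDθ : ∀ d ∈ D, d < θ) :
    ∃ D' : Set (Long θ), D'.Countable ∧ (∀ p ∈ D', fst p ∈ D) ∧
      ∀ d ∈ D, ∀ t : Set.Ico (0 : ℝ) 1, ∃ p ∈ D', fst p = d ∧ t < snd p := by
  classical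
  let r : ℕ → Set.Ico (0 : ℝ) 1 := fun n => ⟨1 - 1 / ((n : ℝ) + 1), by
    have : (0 : ℝ) < (n : ℝ) + 1 := by positivity
    rw [sub_nonneg, div_le_one this]
    linarith [Nat.cast_nonneg (α := ℝ) n], by
    have : (0 : ℝ) < 1 / ((n : ℝ) + 1) := by positivity
    linarith⟩
  refine ⟨{p | fst p ∈ D ∧ ∃ n, snd p = r n}, ?_, fun p hp => hp.1, ?_⟩
  · have h1 : (D ×ˢ Set.range r).Countable := hD.prod (Set.countable_range r)
    refine Set.Countable.mono ?_ (h1.preimage_of_injOn
      (f := fun p : Long θ => (fst p, snd p)) ?_)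
    · rintro p ⟨hp1, n, hn⟩
      exact ⟨hp1, n, hn.symm⟩
    · intro p _ q _ hpq
      have h2 : fst p = fst q := congrArg Prod.fst hpq
      have h3 : snd p = snd q := congrArg Prod.snd hpq
      exact Subtype.ext (Prod.ext h2 h3)
  · intro d hd t
    have ht : (0 : ℝ) < 1 - (t : ℝ) := by
      have := t.2.2
      linarith
    obtain ⟨n, hn⟩ := exists_nat_one_div_lt ht
    refine ⟨lp d (r n) (hDθ d hd), ⟨hd, n, rfl⟩, rfl, ?_⟩
    show (t : ℝ) < 1 - 1 / ((n : ℝ) + 1)
    linarith

omit [WellFoundedLT W] in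
theorem long_lc_snd {θ : W} (p : Long θ) (hp : Lc p) : snd p = z0 := by
  by_contra hne
  have hpos : (0 : ℝ) < snd p := lt_of_le_of_ne (snd p).2.1 fun h => hne (Subtype.ext h.symm)
  have hlt1 := (snd p).2.2
  let r : ℕ → Long θ := fun n => lp (fst p) ⟨(snd p : ℝ) * (1 - 1 / ((n : ℝ) + 1)), by
    have h1 : (0 : ℝ) < (n : ℝ) + 1 := by positivity
    have h2 : (0 : ℝ) ≤ 1 - 1 / ((n : ℝ) + 1) := by
      rw [sub_nonneg, div_le_one h1]
      linarith [Nat.cast_nonneg (α := ℝ) n]
    positivity, by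
    have h1 : (0 : ℝ) < 1 / ((n : ℝ) + 1) := by positivity
    nlinarith⟩ (fst_lt p)
  obtain ⟨w, hw1, hw2⟩ := hp (Set.range r) (Set.countable_range r) (by
    rintro _ ⟨n, rfl⟩
    rw [long_lt_iff]
    refine Or.inr ⟨rfl, ?_⟩
    show (snd p : ℝ) * (1 - 1 / ((n : ℝ) + 1)) < snd p
    have h1 : (0 : ℝ) < 1 / ((n : ℝ) + 1) := by positivity
    nlinarith)
  rw [long_lt_iff] at hw1
  have h0 := hw2 (r 0) ⟨0, rfl⟩
  rw [long_lt_iff] at h0
  rcases hw1 with hw1 | ⟨hw1, hw1'⟩
  · rcases h0 with h0 | h0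
    · exact absurd (lt_trans h0 hw1) (lt_irrefl _)
    · rw [← h0.1] at hw1
      exact absurd hw1 (lt_irrefl _)
  · have hs : (snd w : ℝ) < snd p := hw1'
    have hpos2 : 0 < ((snd p : ℝ) - snd w) / snd p := div_pos (by linarith) hpos
    obtain ⟨n, hn⟩ := exists_nat_one_div_lt hpos2
    have h1 := hw2 (r n) ⟨n, rfl⟩
    rw [long_lt_iff] at h1
    rcases h1 with h1 | ⟨-, h1⟩
    · rw [hw1] at h1
      exact absurd h1 (lt_irrefl _)
    · have h2 : (snd p : ℝ) * (1 - 1 / ((n : ℝ) + 1)) < snd w := h1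
      rw [lt_div_iff₀ hpos] at hn
      nlinarith

omit [WellFoundedLT W] in
theorem long_lc_iff {θ : W} (α : W) (h : α < θ) : Lc (lp α z0 h : Long θ) ↔ Lc α := by
  constructor
  · intro hp D hD hDα
    obtain ⟨D', hD'1, hD'2, hD'3⟩ := long_countable_rat (θ := θ) D hD
      (fun d hd => (hDα d hd).trans h)
    obtain ⟨w, hw1, hw2⟩ := hp D' hD'1 (by
      intro p hpD
      rw [long_lt_iff]
      exact Or.inl (hDα _ (hD'2 p hpD)))
    rw [long_lt_iff] at hw1
    have hw1' : fst w < α := by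
      rcases hw1 with hw1 | ⟨-, hw1⟩
      · exact hw1
      · exact absurd hw1 (not_lt.2 (z0_le _))
    refine ⟨fst w, hw1', fun d hd => ?_⟩
    obtain ⟨p, hp1, hp2, hp3⟩ := hD'3 d hd (snd w)
    have h3 := hw2 p hp1
    rw [long_lt_iff] at h3
    rcases h3 with h3 | ⟨-, h3⟩
    · rwa [hp2] at h3
    · exact absurd h3 (not_lt.2 hp3.le)
  · intro hα D hD hDp
    have hfst : ∀ d ∈ D, fst d < α := by
      intro d hd
      have := hDp d hd
      rw [long_lt_iff] at this
      rcases this with h1 | ⟨-, h1⟩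
      · exact h1
      · exact absurd h1 (not_lt.2 (z0_le _))
    obtain ⟨w, hw1, hw2⟩ := hα (fst '' D) (hD.image _) (by
      rintro _ ⟨d, hd, rfl⟩
      exact hfst d hd)
    refine ⟨lp w z0 (hw1.trans h), ?_, fun d hd => ?_⟩
    · rw [long_lt_iff]
      exact Or.inl hw1
    · rw [long_lt_iff]
      exact Or.inl (hw2 _ ⟨d, hd, rfl⟩)

/-- Two embeddings of long lines with the same origin agree at the points of uncountable
cofinality. -/
theorem long_agree {U : Type u} [LinearOrder U] (w0 : W) (hw0 : ∀ w, w0 ≤ w) {θ θ' : W}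
    (h0 : w0 < θ) (h0' : w0 < θ') (f : Long θ → U) (g : Long θ' → U) (hf : OrdCont f)
    (hg : OrdCont g) (hfg : f (lp w0 z0 h0) = g (lp w0 z0 h0')) (α : W) (hα : Lc α)
    (h : α < θ) (h' : α < θ') : f (lp α z0 h) = g (lp α z0 h') := by
  have hmin : ∀ {η : W} (hη : w0 < η) (x : Long η), lp w0 z0 hη ≤ x := by
    intro η hη x
    rw [long_le_iff]
    rcases lt_or_eq_of_le (hw0 (fst x)) with h1 | h1
    · exact Or.inl h1
    · exact Or.inr ⟨h1, z0_le _⟩
  have hconv : ∀ {η : W} (hη : w0 < η) (k : Long η → U), OrdCont k →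
      ∀ (x : Long η) (w : U), k (lp w0 z0 hη) < w → w < k x → ∃ z, z < x ∧ k z = w := by
    intro η hη k hk x w hw1 hw2
    obtain ⟨z, -, hz2, hz3⟩ := convex_image long_dense long_lub k hk _ x w hw1 hw2
    exact ⟨z, hz2, hz3⟩
  induction α using WellFoundedLT.induction with
  | ind α ih =>
    have hw0α : w0 < α := by
      obtain ⟨w, hw, -⟩ := hα ∅ Set.countable_empty (fun d hd => hd.elim)
      exact lt_of_le_of_lt (hw0 w) hw
    -- the symmetric statement, used twice
    have key : ∀ {η η' : W} (hη : w0 < η) (hη' : w0 < η') (k : Long η → U) (l : Long η' → U),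
        OrdCont k → OrdCont l → k (lp w0 z0 hη) = l (lp w0 z0 hη') →
        ∀ (a : α < η) (a' : α < η'),
        (∀ γ < α, Lc γ → ∀ (b : γ < η) (b' : γ < η'), k (lp γ z0 b) = l (lp γ z0 b')) →
        ¬ k (lp α z0 a) < l (lp α z0 a') := by
      intro η η' hη hη' k l hk hl hkl a a' hih hlt
      have h1 : l (lp w0 z0 hη') < k (lp α z0 a) := by
        rw [← hkl]
        apply hk.mono
        rw [long_lt_iff]
        exact Or.inl hw0α
      obtain ⟨z, hz1, hz2⟩ := hconv hη' l hl _ _ h1 hlt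
      have h2 : Lc (k (lp α z0 a)) :=
        (lc_transfer k hk.mono _ (hmin hη) (hconv hη k hk) _ (by
          rw [long_lt_iff]
          exact Or.inl hw0α)).1 ((long_lc_iff α a).2 hα)
      have hz0 : lp w0 z0 hη' < z := by
        by_contra hcon
        have := hl.mono.monotone (not_lt.1 hcon)
        rw [hz2] at this
        exact absurd h1 (not_lt.2 this)
      rw [← hz2] at h2
      have h3 : Lc z := (lc_transfer l hl.mono _ (hmin hη') (hconv hη' l hl) _ hz0).2 h2
      have h4 : snd z = z0 := long_lc_snd z h3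
      have h5 : z = lp (fst z) z0 (fst_lt z) := by
        rw [← h4]
        rfl
      have h6 : fst z < α := by
        rw [long_lt_iff] at hz1
        rcases hz1 with hz1 | ⟨-, hz1⟩
        · exact hz1
        · exact absurd hz1 (not_lt.2 (z0_le _))
      have h7 : Lc (fst z) := by
        rw [h5] at h3
        exact (long_lc_iff _ _).1 h3
      have h8 := hih (fst z) h6 h7 (h6.trans a) (fst_lt z)
      rw [← h5, hz2] at h8
      have h9 := hk.mono.injective h8
      have h10 : fst z = α := congrArg fst h9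
      rw [h10] at h6
      exact lt_irrefl _ h6
    rcases lt_trichotomy (f (lp α z0 h)) (g (lp α z0 h')) with h1 | h1 | h1
    · exact absurd h1 (key h0 h0' f g hf hg hfg h h' fun γ hγ hγ' b b' => ih γ hγ hγ' b b')
    · exact h1
    · exact absurd h1 (key h0' h0 g f hg hf hfg.symm h' h fun γ hγ hγ' b b' =>
        (ih γ hγ hγ' b' b).symm)

/-- There are points of uncountable cofinality above every point. -/
theorem exists_lc_above (hbdd : ∀ C : Set W, Cardinal.mk C ≤ Cardinal.aleph 1 →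
      ∃ β : W, ∀ i ∈ C, i < β) (hbig : ∀ b : W, Cardinal.aleph.{u} 1 ≤ Cardinal.mk (Set.Ioi b))
    (b : W) : ∃ α, b < α ∧ Lc α := by
  obtain ⟨C, hC1, hC2⟩ := Cardinal.le_mk_iff_exists_subset.1 (hbig b)
  obtain ⟨a, ha⟩ := hbdd C hC2.le
  have hunc : ¬ (Set.Ico b a).Countable := by
    intro hcount
    have h0 : C ⊆ Set.Ico b a := fun c hc => Set.mem_Ico.2 ⟨le_of_lt (hC1 hc), ha c hc⟩
    have h1 : C.Countable := hcount.mono h0
    have h2 := Cardinal.le_aleph0_iff_set_countable.2 h1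
    rw [hC2] at h2
    exact absurd h2 (not_le.2 Cardinal.aleph0_lt_aleph_one)
  obtain ⟨α, hα1, hα2⟩ := exists_min (fun x : W => ¬ (Set.Ico b x).Countable) ⟨a, hunc⟩
  have hbα : b < α := by
    by_contra h
    apply hα1
    rw [Set.Ico_eq_empty h]
    exact Set.countable_empty
  refine ⟨α, hbα, ?_⟩
  intro D hD hDα
  have h1 : (⋃ d ∈ D, insert d (Set.Ico b d)).Countable := by
    apply hD.biUnion
    intro d hd
    apply Set.Countable.insert
    by_contra h
    exact absurd (hα2 d h) (not_le.2 (hDα d hd))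
  have h2 : ¬ (Set.Ico b α ⊆ ⋃ d ∈ D, insert d (Set.Ico b d)) := fun h => hα1 (h1.mono h)
  obtain ⟨γ, hγ1, hγ2⟩ := Set.not_subset.1 h2
  refine ⟨γ, hγ1.2, fun d hd => ?_⟩
  by_contra h
  apply hγ2
  refine Set.mem_biUnion hd ?_
  rcases lt_or_eq_of_le (not_lt.1 h) with h3 | h3
  · exact Or.inr ⟨hγ1.1, h3⟩
  · exact Or.inl h3

end LongLine

/-- No universal LOTS at cardinals at least the continuum. -/
theorem not_universal_large (U : Type u) [LinearOrder U]
    (h1 : Cardinal.continuum ≤ Cardinal.mk U) : ¬ IsUniversalLOTS U := by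
  intro huniv
  have hinf : Cardinal.aleph0 ≤ Cardinal.mk U := Cardinal.aleph0_le_continuum.trans h1
  have hal1 : Cardinal.aleph.{u} 1 ≤ Cardinal.mk U := Cardinal.aleph_one_le_continuum.trans h1
  obtain ⟨W, hlin, hwf, hcard, hIic, hbdd⟩ := exists_succ_order (Cardinal.mk U) hinf
  have hWne : Nonempty W := by
    rw [← Cardinal.mk_ne_zero_iff, hcard]
    exact (Order.succ_ne_bot _)
  obtain ⟨w0, -, hw0⟩ := exists_min (fun _ : W => True) ⟨hWne.some, trivial⟩
  have hw0' : ∀ w : W, w0 ≤ w := fun w => hw0 w trivial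
  -- embeddings of all long lines
  have hL : ∀ θ : W, ∃ f : Long θ → U, OrdCont f := by
    intro θ
    have hcardL : Cardinal.mk (Lex (Long θ ⊕ U)) = Cardinal.mk U := by
      have e1 : Cardinal.mk (Lex (Long θ ⊕ U)) = Cardinal.mk (Long θ) + Cardinal.mk U := by
        change Cardinal.mk (Long θ ⊕ U) = _
        rw [Cardinal.mk_sum, Cardinal.lift_id, Cardinal.lift_id]
      have e3 : Cardinal.mk (Long θ) ≤ Cardinal.mk U := by
        have f1 : Cardinal.mk (Long θ) ≤ Cardinal.mk (Set.Iic θ × Set.Ico (0 : ℝ) 1) := by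
          refine Cardinal.mk_le_of_injective
            (f := fun p : Long θ => (⟨fst p, (fst_lt p).le⟩, snd p)) ?_
          intro p q hpq
          have h2 : fst p = fst q := congrArg (fun z => (z.1 : W)) hpq
          have h3 : snd p = snd q := congrArg (fun z => z.2) hpq
          exact Subtype.ext (Prod.ext h2 h3)
        refine f1.trans ?_
        rw [Cardinal.mk_prod, Cardinal.lift_uzero, Cardinal.mk_Ico_real zero_lt_one,
          Cardinal.lift_continuum]
        calc Cardinal.mk (Set.Iic θ) * Cardinal.continuum ≤ Cardinal.mk U * Cardinal.mk U :=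
              mul_le_mul' (hIic θ) h1
          _ = Cardinal.mk U := Cardinal.mul_eq_self hinf
      rw [e1]
      exact Cardinal.add_eq_right hinf e3
    obtain ⟨f, hf⟩ := huniv _ hcardL
    exact ⟨_, hf.ordCont.comp_inl⟩
  choose f hf using hL
  -- pigeonhole: one origin is used unboundedly often
  obtain ⟨u0, hu0⟩ : ∃ u0 : U, ∀ b : W, ∃ (θ : W) (h : w0 < θ), b < θ ∧
      f θ (lp w0 z0 h) = u0 := by
    by_contra hcon
    push Not at hcon
    choose b hb using hcon
    have hC : Cardinal.mk (insert w0 (Set.range b) : Set W) ≤ Cardinal.mk U := by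
      refine Cardinal.mk_insert_le.trans ?_
      exact Cardinal.add_le_of_le hinf Cardinal.mk_range_le (Cardinal.one_le_aleph0.trans hinf)
    obtain ⟨θ, hθ⟩ := hbdd _ hC
    have h : w0 < θ := hθ w0 (Set.mem_insert _ _)
    exact hb (f θ (lp w0 z0 h)) θ h (hθ _ (Set.mem_insert_of_mem _ ⟨_, rfl⟩)) rfl
  choose T hT0 hT1 hT2 using hu0
  -- the injection of the points of uncountable cofinality
  let E : Set W := {α | Lc α}
  let hmap : E → U := fun α => f (T α.1) (lp α.1 z0 (hT1 α.1))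
  have hinj : ∀ α β : E, α.1 < β.1 → hmap α < hmap β := by
    intro α β hαβ
    have h2 : f (T α.1) (lp α.1 z0 (hT1 α.1)) = f (T β.1) (lp α.1 z0 (hαβ.trans (hT1 β.1))) :=
      long_agree w0 hw0' (hT0 α.1) (hT0 β.1) _ _ (hf _) (hf _)
        ((hT2 α.1).trans (hT2 β.1).symm) α.1 α.2 _ _
    show f (T α.1) (lp α.1 z0 (hT1 α.1)) < f (T β.1) (lp β.1 z0 (hT1 β.1))
    rw [h2]
    apply (hf _).mono
    rw [long_lt_iff]
    exact Or.inl hαβ
  have hinj' : Function.Injective hmap := by
    intro α β hαβ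
    rcases lt_trichotomy α.1 β.1 with h2 | h2 | h2
    · exact absurd hαβ (hinj α β h2).ne
    · exact Subtype.ext h2
    · exact absurd hαβ (hinj β α h2).ne'
  have hE : Cardinal.mk E ≤ Cardinal.mk U := Cardinal.mk_le_of_injective hinj'
  obtain ⟨b, hb⟩ := hbdd E hE
  have hbig : ∀ b : W, Cardinal.aleph.{u} 1 ≤ Cardinal.mk (Set.Ioi b) := by
    intro b
    by_contra hlt
    rw [not_le] at hlt
    have h2 : Cardinal.mk W ≤ Cardinal.mk U := by
      rw [← Cardinal.mk_univ, ← Set.Iic_union_Ioi (a := b)]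
      refine (Cardinal.mk_union_le _ _).trans ?_
      exact Cardinal.add_le_of_le hinf (hIic b) (hlt.le.trans hal1)
    rw [hcard] at h2
    exact absurd h2 (not_le.2 (Order.lt_succ _))
  obtain ⟨α, hα1, hα2⟩ := exists_lc_above (fun C hC => hbdd C (hC.trans hal1)) hbig b
  exact absurd (hb α hα2) (not_lt.2 hα1.le)

end Pool.Agent.MP_4e3057_lc
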