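import Pool.Agent.Lib.MP_4e3057_lc.Basic

/-!
# Stationary subsets of `ω₁` (by closure points of functions) and an Ulam matrix
-/

set_option autoImplicit false

open Filter Topology Set

universe u

namespace Pool.Agent.MP_4e3057_lc

section Stat

variable {I : Type u} [LinearOrder I]

/-- `A` meets the set of closure points of every function. -/
def Stat (A : Set I) : Prop :=
  ∀ F : I → I, ∃ α ∈ A, (∃ β, β < α) ∧ ∀ β < α, F β < α

variable [WellFoundedLT I]

/-- Closure points exist above every point. -/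
theorem exists_closed (hcount : ∀ w : I, (Set.Iic w).Countable)
    (hbdd : ∀ C : Set I, C.Countable → ∃ β : I, ∀ i ∈ C, i < β) (F : I → I) (b : I) :
    ∃ α, b < α ∧ ∀ β < α, F β < α := by
  have hstep : ∀ w : I, ∃ v : I, w < v ∧ ∀ x ≤ w, F x < v := by
    intro w
    obtain ⟨v, hv⟩ := hbdd (insert w (F '' Set.Iic w)) (((hcount w).image F).insert w)
    exact ⟨v, hv w (Set.mem_insert _ _), fun x hx =>
      hv _ (Set.mem_insert_of_mem _ ⟨x, hx, rfl⟩)⟩
  choose s hs1 hs2 using hstep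
  let a : ℕ → I := fun n => Nat.rec b (fun _ w => s w) n
  have ha : ∀ n, a (n + 1) = s (a n) := fun n => rfl
  obtain ⟨v, hv⟩ := hbdd (Set.range a) (Set.countable_range a)
  have hwf : (Set.univ : Set I).IsWF := Set.wellFoundedOn_univ.2 wellFounded_lt
  obtain ⟨α, hα1, hα2⟩ := wellFounded_lt.has_min {x : I | ∀ n, a n < x}
    ⟨v, fun n => hv _ ⟨n, rfl⟩⟩
  refine ⟨α, hα1 0, ?_⟩
  intro β hβ
  have h1 : ¬ ∀ n, a n < β := fun h => hα2 β h hβ
  push Not at h1
  obtain ⟨n, hn⟩ := h1
  exact lt_trans (hs2 (a n) β hn) (by rw [← ha]; exact hα1 (n + 1))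

/-- The Ulam matrix: there are uncountably many pairwise disjoint stationary sets. -/
theorem exists_disjoint_stat (hcount : ∀ w : I, (Set.Iic w).Countable)
    (hbdd : ∀ C : Set I, C.Countable → ∃ β : I, ∀ i ∈ C, i < β) :
    ∃ (J : Set I) (A : I → Set I), ¬ J.Countable ∧ (∀ i ∈ J, Stat (A i)) ∧
      ∀ i ∈ J, ∀ j ∈ J, ∀ α, α ∈ A i → α ∈ A j → i = j := by
  have he : ∀ α : I, ∃ e : I → ℕ, Set.InjOn e (Set.Iic α) := by
    intro α
    exact (Set.countable_iff_exists_injOn).1 (hcount α)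
  choose e he using he
  let M : ℕ → I → Set I := fun n β => {α | β < α ∧ e α β = n}
  have h1 : ∀ β : I, ∃ n, Stat (M n β) := by
    intro β
    by_contra hcon
    push Not at hcon
    have h2 : ∀ n, ∃ F : I → I, ∀ α ∈ M n β, (∃ γ, γ < α) → ∃ γ < α, ¬ F γ < α := by
      intro n
      have := hcon n
      unfold Stat at this
      push Not at this
      obtain ⟨F, hF⟩ := this
      refine ⟨F, fun α hα hγ => ?_⟩
      obtain ⟨γ, hγ1, hγ2⟩ := hF α hα hγ
      exact ⟨γ, hγ1, not_lt.2 hγ2⟩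
    choose F hF using h2
    have h3 : ∀ γ : I, ∃ v : I, ∀ n, F n γ < v := by
      intro γ
      obtain ⟨v, hv⟩ := hbdd (Set.range fun n => F n γ) (Set.countable_range _)
      exact ⟨v, fun n => hv _ ⟨n, rfl⟩⟩
    choose G hG using h3
    obtain ⟨α, hα1, hα2⟩ := exists_closed hcount hbdd G β
    obtain ⟨γ, hγ1, hγ2⟩ := hF (e α β) α ⟨hα1, rfl⟩ ⟨β, hα1⟩
    exact hγ2 ((hG γ (e α β)).trans (hα2 γ hγ1))
  choose n hn using h1
  -- some value of `n` is taken uncountably often
  have h2 : ∃ m, ¬ (n ⁻¹' {m}).Countable := by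
    by_contra hcon
    push Not at hcon
    have h3 : (Set.univ : Set I).Countable := by
      have : (Set.univ : Set I) = ⋃ m, n ⁻¹' {m} := by
        ext x
        simp
      rw [this]
      exact Set.countable_iUnion hcon
    obtain ⟨β, hβ⟩ := hbdd _ h3
    exact lt_irrefl _ (hβ β (Set.mem_univ _))
  obtain ⟨m, hm⟩ := h2
  refine ⟨n ⁻¹' {m}, fun β => M m β, hm, ?_, ?_⟩
  · intro β hβ
    have : n β = m := hβ
    rw [← this]
    exact hn β
  · intro i _ j _ α hi hj
    exact he α hi.1.le hj.1.le (hi.2.trans hj.2.symm)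

end Stat

end Pool.Agent.MP_4e3057_lc
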